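import Pool.Agent.W996.EC.Final

/-! # Exponential closedness for varieties whose torus projection is a curve

Zilber's conjecture for `(ℂ, exp)` is equivalent to Schanuel's conjecture together with the
(strong) exponential-algebraic closedness axiom SEAC.  The existence part of that axiom says that
every free and rotund irreducible variety `V ⊆ ℂ^n × (ℂ^*)^n` contains a point `(z, exp z)`.

We prove it, for every `n`, for all free irreducible `V` of dimension at least `n` whose
projection to `(ℂ^*)^n` has dimension (at most) one.  (For such `V` no other rank of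
rotundity is needed: `dim V ≥ n` is rotundity for the identity matrix.)  Moreover the
solutions are Zariski dense in the projection: for every polynomial `H(y)` which does not vanish
identically on the projection of `V` to `(ℂ^*)^n` there is a solution `z` with
`H(exp z) ≠ 0`; in particular there are infinitely many solutions when `n ≥ 1`. -/

set_option autoImplicit false

namespace Pool.Agent.Results.MP_209724_lc.TorusCurve

/-- Let `P` be a prime ideal of `ℂ[x_1,…,x_n,y_1,…,y_n]` (`Sum.inl` indexes the `x_j`, `Sum.inr`
the `y_j`) and `V` its zero set in `ℂ^n × (ℂ^*)^n`.  Assume that `V` is additively free and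
multiplicatively free, that some `n` of the `2n` coordinates satisfy no polynomial relation on
`V` (that is, `dim V ≥ n`), and that any two of the coordinates `y_i, y_j` satisfy a nontrivial
polynomial relation on `V` (that is, the projection of `V` to `(ℂ^*)^n` has dimension at
most one).  Let `H` be a polynomial in `y` which does not vanish identically on the projection.
Then there is `z ∈ ℂ^n` with `(z, exp z) ∈ V` and `H(exp z) ≠ 0`. -/
theorem result :
    ∀ (n : ℕ) (P : Ideal (MvPolynomial (Fin n ⊕ Fin n) ℂ)) (V : Set (Fin n ⊕ Fin n → ℂ)),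
      P.IsPrime →
      V = {p | (∀ f ∈ P, MvPolynomial.eval p f = 0) ∧ ∀ j : Fin n, p (Sum.inr j) ≠ 0} →
      -- additively free
      (∀ m : Fin n → ℤ, m ≠ 0 → ∀ c : ℂ,
          ∃ p ∈ V, (∑ j : Fin n, (m j : ℂ) * p (Sum.inl j)) ≠ c) →
      -- multiplicatively free
      (∀ m : Fin n → ℤ, m ≠ 0 → ∀ c : ℂ,
          ∃ p ∈ V, (∏ j : Fin n, p (Sum.inr j) ^ (m j)) ≠ c) →
      -- `dim V ≥ n`
      (∃ J : Finset (Fin n ⊕ Fin n), n ≤ J.card ∧
        ∀ f : MvPolynomial (Fin n ⊕ Fin n) ℂ, f.vars ⊆ J →
          (∀ p ∈ V, MvPolynomial.eval p f = 0) → f = 0) →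
      -- the projection to `(ℂ^*)^n` has dimension at most one
      (∀ i j : Fin n, ∃ f : MvPolynomial (Fin 2) ℂ, f ≠ 0 ∧
        ∀ p ∈ V, MvPolynomial.eval ![p (Sum.inr i), p (Sum.inr j)] f = 0) →
      ∀ H : MvPolynomial (Fin n) ℂ,
        (∃ p ∈ V, MvPolynomial.eval (fun j => p (Sum.inr j)) H ≠ 0) →
        ∃ z : Fin n → ℂ,
          (∀ f ∈ P, MvPolynomial.eval (Sum.elim z (fun i : Fin n => Complex.exp (z i))) f = 0) ∧
          MvPolynomial.eval (fun i : Fin n => Complex.exp (z i)) H ≠ 0 :=
  Pool.Agent.W996.EC.ecV

end Pool.Agent.Results.MP_209724_lc.TorusCurve
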